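import Pool.Agent.ASE.Stmts3

open scoped BigOperators

noncomputable section

namespace Pool.Agent.PP.SE.H95

open Pool.Agent.Helper51_AWC Pool.Agent.Helper79_WRA Pool.Agent.PP Pool.Agent.PP.KF
open Pool.Agent.PP.K9 Pool.Agent.PP.K9.H97 Pool.Agent.PP.H75 Pool.Agent.PP.T3 Pool.Agent.PP.SO
open Pool.Agent.PP.SD

theorem cn3 : Cn3Stmt := by
  intro V₀ _ _ E₀ n c d L
  have hp : ∀ (π : St E₀ (pL L)), ∀ t ∈ L, (π : MulAut V₀) t.2.2.1 = t.2.2.1 := fun π t ht =>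
    π.2.2 _ (Subgroup.subset_closure ⟨t, ht, rfl⟩)
  have hq : ∀ (ρ : St E₀ (qL L)), ∀ t ∈ L, (ρ : MulAut V₀) t.2.2.2 = t.2.2.2 := fun ρ t ht =>
    ρ.2.2 _ (Subgroup.subset_closure ⟨t, ht, rfl⟩)
  have hqi : ∀ (ρ : St E₀ (qL L)), ∀ t ∈ L, (ρ : MulAut V₀)⁻¹ t.2.2.2 = t.2.2.2 :=
    fun ρ t ht => by rw [MulAut.inv_apply, MulEquiv.symm_apply_eq, hq ρ t ht]
  have hpi : ∀ (π : St E₀ (pL L)), ∀ t ∈ L, (π : MulAut V₀)⁻¹ t.2.2.1 = t.2.2.1 :=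
    fun π t ht => by rw [MulAut.inv_apply, MulEquiv.symm_apply_eq, hp π t ht]
  have hii : ∀ (σ : MulAut V₀) (v : V₀), σ⁻¹ (σ v) = v := fun σ v => by
    rw [MulAut.inv_apply, MulEquiv.symm_apply_apply]
  have hii' : ∀ (σ : MulAut V₀) (v : V₀), σ (σ⁻¹ v) = v := fun σ v => by
    rw [MulAut.inv_apply, MulEquiv.apply_symm_apply]
  set A : Set (((MulAut V₀ × V₀) × (MulAut V₀ × V₀)) × ((St E₀ (pL L) × St E₀ (pL L)) ×
      (St E₀ (qL L) × St E₀ (qL L)))) := {w | w.1.1 ∈ QL E₀ (Lm L) ∧ w.1.2 ∈ QL E₀ (Lq L) ∧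
    w.1.2.2 = (w.2.1.2 : MulAut V₀) (w.1.1.2 * (w.2.1.1 : MulAut V₀) c) ∧
    w.1.1.1 w.1.1.2 = (w.2.2.2 : MulAut V₀) (w.1.2.1 w.1.2.2 * (w.2.2.1 : MulAut V₀) d)}
    with hA
  set N : Set (E₀ × E₀ × V₀) := {w | w.1.1 w.2.2 = d * w.2.1.1 (c * w.2.2) ∧ ∀ s ∈ L,
    w.1.1 (s.2.2.1 * (w.2.2 ^ (s.2.1 : ℕ))⁻¹) = s.2.2.2 ∧
    w.2.1.1 (s.2.2.1 * (c * w.2.2) ^ (s.1 : ℕ)) = s.2.2.2} with hN
  have hNc : N13 E₀ c d L = Nat.card N := rfl
  have key : A ≃ ((St E₀ (pL L) × St E₀ (pL L)) × (St E₀ (qL L) × St E₀ (qL L))) × N :=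
    { toFun := fun w => ⟨w.1.2,
        ⟨(⟨(((w.1.2.2.2 : MulAut V₀) * (w.1.2.2.1 : MulAut V₀))⁻¹ * w.1.1.1.1 *
              (w.1.2.1.1 : MulAut V₀)),
            E₀.mul_mem (E₀.mul_mem (E₀.inv_mem (E₀.mul_mem w.1.2.2.2.2.1 w.1.2.2.1.2.1))
              w.2.1.1) w.1.2.1.1.2.1⟩,
          ⟨((w.1.2.2.1 : MulAut V₀)⁻¹ * w.1.1.2.1 * (w.1.2.1.2 : MulAut V₀) *
              (w.1.2.1.1 : MulAut V₀)),
            E₀.mul_mem (E₀.mul_mem (E₀.mul_mem (E₀.inv_mem w.1.2.2.1.2.1) w.2.2.1.1)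
              w.1.2.1.2.2.1) w.1.2.1.1.2.1⟩,
          (w.1.2.1.1 : MulAut V₀)⁻¹ w.1.1.1.2), by
          obtain ⟨⟨⟨⟨σ, y⟩, ⟨σ', y'⟩⟩, ⟨⟨π, π'⟩, ⟨ρ, ρ'⟩⟩⟩, ⟨hσE, hσ⟩, ⟨hσE', hσ'⟩, h1, h2⟩ := w
          simp only at hσE hσ hσE' hσ' h1 h2
          have hy' : (π' : MulAut V₀) ((π : MulAut V₀) (c * (π : MulAut V₀)⁻¹ y)) = y' := by
            rw [h1, map_mul (π : MulAut V₀), hii', mul_comm]
          refine ⟨?_, fun t ht => ⟨?_, ?_⟩⟩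
          · simp only [mul_inv_rev, MulAut.mul_apply]
            rw [hii', h2, hii, map_mul, hii, hy', mul_comm]
          · have := hσ _ ⟨t, ht, rfl⟩
            simp only at this
            simp only [mul_inv_rev, MulAut.mul_apply]
            rw [map_mul (π : MulAut V₀), hp π t ht, map_inv, map_pow, hii']
            rw [zpow_neg, zpow_natCast] at this
            rw [this, hqi, hqi] <;> assumption
          · have := hσ' _ ⟨t, ht, rfl⟩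
            simp only at this
            simp only [MulAut.mul_apply]
            rw [map_mul (π : MulAut V₀), map_mul (π' : MulAut V₀), hp π t ht, hp π' t ht,
              map_pow, map_pow, hy']
            rw [zpow_natCast] at this
            rw [this, hqi] <;> assumption⟩⟩
      invFun := fun v => ⟨⟨⟨⟨(v.1.2.2 : MulAut V₀) * (v.1.2.1 : MulAut V₀) * v.2.1.1.1 *
              (v.1.1.1 : MulAut V₀)⁻¹, (v.1.1.1 : MulAut V₀) v.2.1.2.2⟩,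
            ⟨(v.1.2.1 : MulAut V₀) * v.2.1.2.1.1 * (v.1.1.1 : MulAut V₀)⁻¹ *
              (v.1.1.2 : MulAut V₀)⁻¹,
             (v.1.1.2 : MulAut V₀) ((v.1.1.1 : MulAut V₀) v.2.1.2.2 *
              (v.1.1.1 : MulAut V₀) c)⟩⟩, v.1⟩, by
          obtain ⟨⟨⟨π, π'⟩, ⟨ρ, ρ'⟩⟩, ⟨⟨⟨s, hs⟩, ⟨s', hs'⟩, X⟩, h1, h2⟩⟩ := v
          simp only at h1 h2
          have hcX : (π : MulAut V₀)⁻¹ ((π' : MulAut V₀)⁻¹ ((π' : MulAut V₀)
              ((π : MulAut V₀) X * (π : MulAut V₀) c))) = c * X := by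
            rw [hii, map_mul, hii, hii, mul_comm]
          refine ⟨⟨?_, ?_⟩, ⟨?_, ?_⟩, rfl, ?_⟩
          · exact E₀.mul_mem (E₀.mul_mem (E₀.mul_mem ρ'.2.1 ρ.2.1) hs) (E₀.inv_mem π.2.1)
          · rintro _ ⟨t, ht, rfl⟩
            have := (h2 t ht).1
            simp only [MulAut.mul_apply]
            rw [zpow_neg, zpow_natCast, map_mul ((π : MulAut V₀)⁻¹), hpi π t ht, map_inv,
              map_pow, hii, this, hq ρ t ht, hq ρ' t ht]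
          · exact E₀.mul_mem (E₀.mul_mem (E₀.mul_mem ρ.2.1 hs') (E₀.inv_mem π.2.1))
              (E₀.inv_mem π'.2.1)
          · rintro _ ⟨t, ht, rfl⟩
            have := (h2 t ht).2
            simp only [MulAut.mul_apply]
            rw [zpow_natCast, map_mul ((π' : MulAut V₀)⁻¹), map_mul ((π : MulAut V₀)⁻¹),
              hpi π' t ht, hpi π t ht, map_pow, map_pow, hcX, this, hq ρ t ht]
          · simp only [MulAut.mul_apply]
            rw [hii, h1, hcX, ← map_mul (ρ : MulAut V₀), mul_comm d]⟩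
      left_inv := by
        rintro ⟨⟨⟨⟨σ, y⟩, ⟨σ', y'⟩⟩, ⟨⟨π, π'⟩, ⟨ρ, ρ'⟩⟩⟩, ⟨hσE, hσ⟩, ⟨hσE', hσ'⟩, h1, h2⟩
        simp only at h1 h2
        apply Subtype.ext
        simp only [Prod.mk.injEq, and_true]
        refine ⟨⟨?_, hii' _ _⟩, ?_, ?_⟩
        · group
        · group
        · rw [h1, hii']
      right_inv := by
        rintro ⟨⟨⟨π, π'⟩, ⟨ρ, ρ'⟩⟩, ⟨⟨⟨s, hs⟩, ⟨s', hs'⟩, X⟩, h1, h2⟩⟩
        simp only [Prod.mk.injEq, true_and]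
        apply Subtype.ext
        simp only [Prod.mk.injEq]
        refine ⟨Subtype.ext ?_, Subtype.ext ?_, hii _ _⟩
        · simp only; group
        · simp only; group }
  have h := Nat.card_congr key
  rw [hNc]
  change Nat.card A = _
  rw [h, Nat.card_prod, Nat.card_prod, Nat.card_prod, Nat.card_prod]
  unfold nS
  ring

end Pool.Agent.PP.SE.H95
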