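import Pool.Agent.ASE.Stmts2b

/-!
# Squad ASE, row RFC: the field `d3`
-/

open scoped BigOperators

noncomputable section

namespace Pool.Agent.PP.SE.H95

open Pool.Agent.Helper51_AWC Pool.Agent.Helper79_WRA Pool.Agent.PP Pool.Agent.PP.KF
open Pool.Agent.PP.K9 Pool.Agent.PP.K9.H97 Pool.Agent.PP.H75 Pool.Agent.PP.T3 Pool.Agent.PP.SO
open Pool.Agent.PP.SD

attribute [local instance] Ideal.Quotient.field

/-- sums over an orbit -/
theorem orb_sum {V₀ : Type} [CommGroup V₀] [Finite V₀] {E₀ : Subgroup (MulAut V₀)}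
    {W : Subgroup V₀} {s : V₀ → ℂ} (hs : (orb E₀ W s).ncard = nS E₀ W) (c : V₀) :
    ∑ᶠ s' ∈ orb E₀ W s, s' c = ∑ᶠ τ : St E₀ W, s ((τ : MulAut V₀) c) := by
  have hr : orb E₀ W s = Set.range (fun (τ : St E₀ W) (v : V₀) => s ((τ : MulAut V₀) v)) := by
    ext s'
    constructor
    · rintro ⟨τ, hτ, rfl⟩
      exact ⟨⟨τ, hτ⟩, rfl⟩
    · rintro ⟨τ, rfl⟩
      exact ⟨τ.1, τ.2, rfl⟩
  have hfin : Finite (MulAut V₀) :=
    Finite.of_injective (fun σ : MulAut V₀ => (σ : V₀ → V₀)) (fun σ τ h => by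
      ext v
      exact congrFun h v)
  have hinj : Function.Injective (fun (τ : St E₀ W) (v : V₀) => s ((τ : MulAut V₀) v)) := by
    have h1 := Set.injOn_of_ncard_image_eq (s := (Set.univ : Set (St E₀ W)))
      (f := fun (τ : St E₀ W) (v : V₀) => s ((τ : MulAut V₀) v)) (by
        rw [Set.image_univ, ← hr, hs, Set.ncard_univ]
        rfl) Set.finite_univ
    exact Set.injOn_univ.1 h1
  rw [hr, finsum_mem_range hinj]

/-- RFC: the field `d3`. -/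
theorem rfc (val : ValStmt) (vxm : VxmStmt) (gea : GeaStmt) (gec : GecStmt) : RfcStmt := by
  classical
  intro ℓ hℓ M _ hM h2 V₀ G _ _ _ _ E₀ hF B hB W hW N e O hC D hD χ hχ c x
  have hfin : Finite (MulAut V₀) :=
    Finite.of_injective (fun σ : MulAut V₀ => (σ : V₀ → V₀)) (fun σ τ h => by
      ext v
      exact congrFun h v)
  have := Fintype.ofFinite (St E₀ W)
  obtain ⟨-, g2, g3, -, -, g6, -⟩ := gea ℓ V₀ E₀ hF W hW
  obtain ⟨-, -, -, -, -, -, -, -, c9, c10, -⟩ := gec ℓ V₀ E₀ hF W hW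
  obtain ⟨-, -, -, v4, v5⟩ := val ℓ M hM h2 V₀ G E₀ hF B hB W hW N e O hC D hD
  obtain ⟨-, ⟨-, -, -, ⟨ν, hν, hI⟩, m5, -⟩, -⟩ := vxm ℓ M hM h2 V₀ G E₀ hF B hB W hW χ hχ
  have hnu : ∀ w ∈ W, ∀ w' : V₀, nu B χ (w * w') = nu B χ w * nu B χ w' := by
    intro w hw w'
    unfold nu
    rw [map_mul, m5 w hw]
    unfold nu
    ring
  have hpr : ∀ τ : St E₀ W, pr ℓ E₀ W (x * (τ : MulAut V₀) c) =
      pr ℓ E₀ W x * pr ℓ E₀ W c := by
    intro τ
    rw [g3, g6 τ.1 τ.2]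
  have hn : Fintype.card (St E₀ W) = nS E₀ W := (Nat.card_eq_fintype_card).symm
  have hfs : ∀ f : St E₀ W → ℂ, ∑ᶠ τ, f τ = ∑ τ, f τ := fun f => finsum_eq_sum_of_fintype f
  by_cases hN : χ ∈ N
  · rw [(v4 χ hχ hN).2 c, hD.dD χ hχ, if_pos hN, hfs]
    have h1 : ∀ τ : St E₀ W, D.D W χ (x * (τ : MulAut V₀) c) =
        nu B χ (pr ℓ E₀ W x) * nu B χ (pr ℓ E₀ W c) * e χ := by
      intro τ
      rw [hD.dD χ hχ, if_pos hN, hpr, hnu _ (g2 x).1]
    rw [Finset.sum_congr rfl fun τ _ => h1 τ, Finset.sum_const, Finset.card_univ, hn,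
      nsmul_eq_mul]
    ring
  · obtain ⟨⟨s₀, hs₀, hs1, hO⟩, -⟩ := (hC.lv ν hν).vX χ hI hN
    obtain ⟨o1, -, o3⟩ := c10 s₀ hs₀ hs1
    have hOf : (O χ).Finite := by
      rw [hO]
      apply Set.finite_of_ncard_ne_zero
      rw [o1]
      have := hW.2
      omega
    have hlin : ∀ s ∈ O χ, s ∈ lin V₀ ∧ ∑ᶠ s' ∈ O χ, s' c =
        ∑ τ : St E₀ W, s ((τ : MulAut V₀) c) := by
      intro s hs
      rw [hO] at hs
      have h3 := o3 s hs
      refine ⟨?_, ?_⟩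
      · obtain ⟨τ, hτ, rfl⟩ := hs
        exact (c9 s₀ hs₀ τ hτ).1.1
      · rw [hO, ← h3, orb_sum (by rw [h3, o1]), hfs]
    rw [(v5 χ hχ hN).2 c, hD.dD χ hχ, if_neg hN, hfs]
    have h1 : ∀ τ : St E₀ W, D.D W χ (x * (τ : MulAut V₀) c) =
        nu B χ (pr ℓ E₀ W x) * nu B χ (pr ℓ E₀ W c) * e χ *
          ∑ s ∈ hOf.toFinset, s x * s ((τ : MulAut V₀) c) := by
      intro τ
      rw [hD.dD χ hχ, if_neg hN, hpr, hnu _ (g2 x).1,
        finsum_mem_eq_finite_toFinset_sum _ hOf]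
      have h3 : ∑ s ∈ hOf.toFinset, s (x * (τ : MulAut V₀) c) =
          ∑ s ∈ hOf.toFinset, s x * s ((τ : MulAut V₀) c) :=
        Finset.sum_congr rfl fun s hs => (hlin s (hOf.mem_toFinset.1 hs)).1.2 _ _
      rw [h3]
      ring
    rw [Finset.sum_congr rfl fun τ _ => h1 τ, ← Finset.mul_sum, Finset.sum_comm]
    have h4 : ∑ s ∈ hOf.toFinset, ∑ τ : St E₀ W, s x * s ((τ : MulAut V₀) c) =
        (∑ᶠ s ∈ O χ, s x) * ∑ᶠ s ∈ O χ, s c := by
      rw [finsum_mem_eq_finite_toFinset_sum (fun s : V₀ → ℂ => s x) hOf, Finset.sum_mul]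
      refine Finset.sum_congr rfl fun s hs => ?_
      rw [← Finset.mul_sum, (hlin s (hOf.mem_toFinset.1 hs)).2]
    rw [h4]
    ring

end Pool.Agent.PP.SE.H95
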