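import Pool.Agent.ASE.Stmts2
import Pool.Agent.ASD.Stmts3
import Pool.Agent.ASD.Stmts4
import Pool.Agent.Helper81_AT6.CPL
import Pool.Agent.Helper32_AT6.IPS
import Pool.Agent.Helper33_ASO.NSV
import Pool.Agent.Helper25_K9.PRG

/-!
# Squad ASE, row RPS: the inner products by sections
-/

open scoped BigOperators

noncomputable section

namespace Pool.Agent.PP.SE.H95

open Pool.Agent.Helper51_AWC Pool.Agent.Helper79_WRA Pool.Agent.PP Pool.Agent.PP.KF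
open Pool.Agent.PP.K9 Pool.Agent.PP.K9.H97 Pool.Agent.PP.H75 Pool.Agent.PP.T3 Pool.Agent.PP.SO
open Pool.Agent.PP.SD Pool.Agent.PP.SO.H33

attribute [local instance] Ideal.Quotient.field

section gen

variable {M : Ideal (integralClosure ℤ ℂ)} [M.IsMaximal] {G : Type} [Group G] [Finite G]

open Classical in
/-- the inner product of two characters of a block by sections -/
theorem sec_ips (sec : T6.SecStmt) (ips : T6.IpsStmt) {ℓ : ℕ} [hℓ : Fact ℓ.Prime]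
    (hM : (ℓ : integralClosure ℤ ℂ) ∈ M) {e : G → FF M} {V : Subgroup G} {γ : G → FF M}
    (hL : Ld ℓ e V γ) (b : G → G → FF M) (hb : ∀ v ∈ V, Lc e V γ v (b v)) {χ ψ : G → ℂ}
    (hχ : χ ∈ IrrE M e) (hψ : ψ ∈ IrrE M e) :
    (if χ = ψ then 1 else 0 : ℂ) =
      ∑ᶠ (v : G) (_ : v ∈ V), T6.wt V γ v * T6.Pm M ℓ v (b v) χ ψ := by
  have := Fintype.ofFinite G
  have hcl : ∀ x y, χ (y * x * y⁻¹) = χ x := fun x y => irr_conj hχ.1 x y
  have hcl' : ∀ x y, ψ (y * x * y⁻¹) = ψ x := fun x y => irr_conj hψ.1 x y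
  have hid : IsIdem e := hL.blk.1
  have hG : (Nat.card G : ℂ) ≠ 0 := by exact_mod_cast Nat.card_pos.ne'
  set S : Finset G := Finset.univ.filter (fun v => v ∈ V) with hS
  have hsum : ∀ F : G → ℂ, ∑ᶠ (v : G) (_ : v ∈ V), F v = ∑ v ∈ S, F v := by
    intro F
    rw [← finsum_mem_coe_finset]
    refine finsum_congr fun c => ?_
    simp [hS]
  have hel : ∀ v ∈ V, El ℓ v := by
    intro v hv
    obtain ⟨k, hk⟩ := hL.tp.pg ⟨v, hv⟩
    exact ⟨k, by simpa using congrArg Subtype.val hk⟩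
  have h1 : (Nat.card G : ℂ) * (if χ = ψ then 1 else 0 : ℂ) =
      ∑ v ∈ S, T6.wt V γ v * ((Nat.card G : ℂ) * T6.Pm M ℓ v (b v) χ ψ) := by
    have e1 : (Nat.card G : ℂ) * (if χ = ψ then 1 else 0 : ℂ) =
        ∑ g : G, χ g * starRingEnd ℂ (ψ g) := by
      have e0 : ∑ g : G, χ g * starRingEnd ℂ (ψ g) = ∑ g : G, χ g * ψ g⁻¹ :=
        Finset.sum_congr rfl fun g _ => by rw [H94.irr_star hψ.1]
      rw [e0]
      by_cases h : χ = ψ
      · subst h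
        rw [if_pos rfl, mul_one, irr_orth_self hχ.1, Nat.card_eq_fintype_card]
      · rw [if_neg h, mul_zero, irr_orth_ne hχ.1 hψ.1 h]
    have e2 : ∀ g : G, χ g * starRingEnd ℂ (ψ g) =
        ∑ v ∈ S, T6.wt V γ v * (T6.sv M ℓ v (b v) χ g * starRingEnd ℂ (ψ g)) := by
      intro g
      have e3 := sec ℓ M hM G e V γ hL b hb χ hcl g
      rw [T6.H81.fv_eh hid hχ, hsum] at e3
      have e5 : ∑ v ∈ S, T6.wt V γ v * (T6.sv M ℓ v (b v) χ g * starRingEnd ℂ (ψ g)) =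
          (∑ v ∈ S, T6.wt V γ v * T6.sv M ℓ v (b v) χ g) * starRingEnd ℂ (ψ g) := by
        rw [Finset.sum_mul]
        refine Finset.sum_congr rfl fun v _ => ?_
        ring
      rw [e5, ← e3]
    rw [e1, Finset.sum_congr rfl fun g _ => e2 g, Finset.sum_comm]
    refine Finset.sum_congr rfl fun v hv => ?_
    have hvV : v ∈ V := (Finset.mem_filter.1 hv).2
    rw [← Finset.mul_sum]
    congr 1
    have e4 := ips ℓ M hM G v (hel v hvV) (b v) (hb v hvV).blk.ix χ ψ hcl hcl'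
    rw [finsum_eq_sum_of_fintype] at e4
    rw [e4]
  have h2 : (Nat.card G : ℂ) * (if χ = ψ then 1 else 0 : ℂ) =
      (Nat.card G : ℂ) * ∑ v ∈ S, T6.wt V γ v * T6.Pm M ℓ v (b v) χ ψ := by
    rw [h1, Finset.mul_sum]
    refine Finset.sum_congr rfl fun v _ => ?_
    ring
  rw [hsum]
  rw [← mul_left_cancel₀ hG h2]
  by_cases h : χ = ψ
  · rw [if_pos h, if_pos h]
  · rw [if_neg h, if_neg h]

/-- sums over a subgroup -/
theorem fin_sub (H : Subgroup G) (P : G → Prop) (hP : ∀ s, P s → s ∈ H) (F : G → ℂ) :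
    ∑ᶠ (s : H) (_ : P s), F s = ∑ᶠ (s : G) (_ : P s), F s := by
  classical
  have h := H75.sum_sub H (fun s => if P s then F s else 0)
    (fun x hx => if_neg fun h => hx (hP x h))
  have h1 : ∀ s : G, ∑ᶠ (_ : P s), F s = if P s then F s else 0 := fun s => finsum_eq_if
  have h2 : ∀ s : H, ∑ᶠ (_ : P s), F s = if P s then F s else 0 := fun s => finsum_eq_if
  rw [finsum_congr h2, finsum_congr h1]
  exact h.symm

/-- the lift of a block of a subgroup which is the whole group -/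
theorem EG_top {X : Subgroup G} (hX : X = ⊤) {e : G → FF M} (he : IsCl e) (t : G) :
    EG M X e t = eh M e t := by
  subst hX
  rw [EG_mem _ _ (Subgroup.mem_top t)]
  have h1 := T3.H62.eh_equiv (M := M) (Subgroup.topEquiv (G := G))
    (b := fun t : (⊤ : Subgroup G) => e t) (fun x y => he x y) ⟨t, Subgroup.mem_top t⟩
  rw [← h1]
  rfl

omit [M.IsMaximal] [Finite G] in
/-- the centraliser of a cyclic subgroup -/
theorem C_zp {V₀ : Type} [CommGroup V₀] (B : Bk (FF M) V₀ G) (x : V₀) :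
    B.C (Subgroup.zpowers x) = Cu (B.i x) := by
  unfold Bk.C
  rw [MonoidHom.map_zpowers]
  ext y
  rw [Subgroup.mem_centralizer_singleton_iff, Subgroup.mem_centralizer_iff]
  constructor
  · intro h
    exact (h (B.i x) (Subgroup.mem_zpowers _)).symm
  · rintro h _ ⟨k, rfl⟩
    exact ((show Commute y (B.i x) from h).zpow_right k).symm

omit [Finite G] in
/-- the local blocks as in `Lc` -/
theorem lc_lb {V₀ : Type} [CommGroup V₀] {ℓ : ℕ} {E₀ : Subgroup (MulAut V₀)} {B : Bk (FF M) V₀ G}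
    (hB : Sb ℓ M E₀ B) (x : V₀) :
    Lc B.e B.i.range B.g (B.i x) (B.b (Subgroup.zpowers x)) := by
  have h := hB.lb (Subgroup.zpowers x)
  have h1 := h.blk
  have h2 := h.und
  have key : ∀ X : Subgroup G, X = Cu (B.i x) → Bx X (B.b (Subgroup.zpowers x)) →
      mulF (fun t : X => B.e t) (fun t : X => B.b (Subgroup.zpowers x) t) =
        (fun t : X => B.b (Subgroup.zpowers x) t) →
      Lc B.e B.i.range B.g (B.i x) (B.b (Subgroup.zpowers x)) := by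
    rintro X rfl k1 k2
    exact ⟨k1, k2, h.gam⟩
  exact key _ (C_zp B x) h1 h2

open Classical in
/-- the inner product of two characters of the block of a datum -/
theorem dat_ips (sec : T6.SecStmt) (ips : T6.IpsStmt) {ℓ : ℕ} [hℓ : Fact ℓ.Prime]
    (hM : (ℓ : integralClosure ℤ ℂ) ∈ M) {V₀ : Type} [CommGroup V₀] [Fintype V₀]
    {E₀ : Subgroup (MulAut V₀)} {B : Bk (FF M) V₀ G} (hB : Sb ℓ M E₀ B) {χ ψ : G → ℂ}
    (hχ : χ ∈ IrrE M B.e) (hψ : ψ ∈ IrrE M B.e) :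
    (if χ = ψ then 1 else 0 : ℂ) = ∑ x : V₀, T6.wt B.i.range B.g (B.i x) *
      T6.Pm M ℓ (B.i x) (B.b (Subgroup.zpowers x)) χ ψ := by
  have hc : ∀ x : V₀, (Subgroup.zpowers (B.i x)).comap B.i = Subgroup.zpowers x := by
    intro x
    rw [← MonoidHom.map_zpowers, Subgroup.comap_map_eq_self_of_injective hB.inj]
  have h := sec_ips sec ips hM hB.ld (fun v => B.b ((Subgroup.zpowers v).comap B.i)) (by
    rintro _ ⟨x, rfl⟩
    show Lc B.e B.i.range B.g (B.i x) (B.b ((Subgroup.zpowers (B.i x)).comap B.i))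
    rw [hc]
    exact lc_lb hB x) hχ hψ
  rw [h]
  have h1 : ∑ᶠ (v : G) (_ : v ∈ B.i.range), T6.wt B.i.range B.g v *
      T6.Pm M ℓ v (B.b ((Subgroup.zpowers v).comap B.i)) χ ψ =
      ∑ᶠ v ∈ Set.range B.i, T6.wt B.i.range B.g v *
      T6.Pm M ℓ v (B.b ((Subgroup.zpowers v).comap B.i)) χ ψ := rfl
  rw [h1, finsum_mem_range hB.inj, finsum_eq_sum_of_fintype]
  refine Finset.sum_congr rfl fun x _ => ?_
  rw [hc]

end gen

section main

variable {ℓ : ℕ} [hℓ : Fact ℓ.Prime] {M : Ideal (integralClosure ℤ ℂ)} [M.IsMaximal]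
  {V₀ G : Type} [CommGroup V₀] [Group G] [Finite G] {E₀ : Subgroup (MulAut V₀)}
  {B : Bk (FF M) V₀ G}

/-- the values of the characters of the block of `C ⊤` at the regular elements -/
def Kf (ℓ : ℕ) (B : Bk (FF M) V₀ G) (s : G) : ℂ :=
  (Nat.card (B.C ⊤) : ℂ) / (ℓ ^ 2 * B.D ⊤) * bh B ⊤ s⁻¹

theorem bh_cl (W : Subgroup V₀) {z : G} (hz : z ∈ B.C W) (g : G) :
    bh B W (z⁻¹ * g * z) = bh B W g := by
  have := Fintype.ofFinite (B.C W)
  by_cases hg : g ∈ B.C W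
  · have h1 := bh_W (M := M) B W ⟨z⁻¹ * g * z, (B.C W).mul_mem ((B.C W).mul_mem
      ((B.C W).inv_mem hz) hg) hz⟩
    have h2 := bh_W (M := M) B W ⟨g, hg⟩
    have h3 := K9.H25.eh_cl (M := M) (fun t : B.C W => B.b W t) ⟨g, hg⟩ ⟨z, hz⟩⁻¹
    have e1 : (⟨z, hz⟩⁻¹ * ⟨g, hg⟩ * (⟨z, hz⟩⁻¹)⁻¹ : B.C W) =
        ⟨z⁻¹ * g * z, (B.C W).mul_mem ((B.C W).mul_mem ((B.C W).inv_mem hz) hg) hz⟩ := by
      apply Subtype.ext
      show z⁻¹ * g * (z⁻¹)⁻¹ = z⁻¹ * g * z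
      rw [inv_inv]
    rw [e1] at h3
    exact (h1.trans h3).trans h2.symm
  · rw [bh_not B W hg, bh_not B W]
    intro h
    apply hg
    have := (B.C W).mul_mem ((B.C W).mul_mem hz h) ((B.C W).inv_mem hz)
    have e : z * (z⁻¹ * g * z) * z⁻¹ = g := by group
    rwa [e] at this

theorem bh_sing (wbo : K9.WboStmt) (hM : (ℓ : integralClosure ℤ ℂ) ∈ M) {W : Subgroup V₀}
    (hB : Bx (B.C W) (B.b W)) {s : G} (hs : ¬ Reg ℓ s) : bh B W s = 0 := by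
  by_cases h : s ∈ B.C W
  · have := Fintype.ofFinite (B.C W)
    have h1 := bh_W (M := M) B W ⟨s, h⟩
    rw [show ((⟨s, h⟩ : B.C W) : G) = s from rfl] at h1
    rw [h1]
    refine K9.H25.eh_sing wbo ℓ M hM _ hB.blk.1 _ ?_
    intro h2
    exact hs ((T6.H32.reg_coe_iff (⟨s, h⟩ : B.C W)).2 h2)
  · exact bh_not B W h

omit [Finite G] hℓ in
/-- a product of an element of order `ℓ` and of a regular element -/
theorem not_reg {v s : G} (hv : v ^ ℓ = 1) (h1 : v ≠ 1) (hc : Commute v s) (hs : Reg ℓ s) :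
    ¬ Reg ℓ (v * s) := by
  intro h
  apply h1
  unfold Reg at hs h
  have hn : (orderOf s * orderOf (v * s)).Coprime ℓ := Nat.Coprime.mul_left hs h
  have h2 : s ^ (orderOf s * orderOf (v * s)) = 1 := by
    rw [pow_mul, pow_orderOf_eq_one, one_pow]
  have h3 : (v * s) ^ (orderOf s * orderOf (v * s)) = 1 := by
    rw [mul_comm (orderOf s), pow_mul, pow_orderOf_eq_one, one_pow]
  rw [hc.mul_pow, h2, mul_one] at h3
  have h4 : orderOf v ∣ 1 := by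
    rw [← hn]
    exact Nat.dvd_gcd (orderOf_dvd_of_pow_eq_one h3) (orderOf_dvd_of_pow_eq_one hv)
  exact orderOf_eq_one_iff.1 (Nat.dvd_one.1 h4)

theorem rw_top [Finite V₀] (hF : Fq ℓ V₀ E₀) : Rw E₀ (⊤ : Subgroup V₀) := by
  refine ⟨?_, fun σ _ h => ?_⟩
  · intro h
    have h1 := hF.cd
    rw [← Nat.card_congr (Subgroup.topEquiv (G := V₀)).toEquiv, h, Subgroup.card_bot] at h1
    have h2 := hℓ.out.one_lt
    nlinarith
  · ext v
    exact h v (Subgroup.mem_top v)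

/-- the values of the characters of `g` at the regular elements -/
theorem kap_reg [Finite V₀] (wbo : K9.WboStmt) (nsd : SD.NsdStmt)
    (hM : (ℓ : integralClosure ℤ ℂ) ∈ M) (h2 : ℓ ≠ 2) (hF : Fq ℓ V₀ E₀) (hB : Sd ℓ M E₀ B)
    {κ : G → ℂ} (hκ : κ ∈ Ch B ⊤) {s : G} (hs : s ∈ B.C ⊤) (hr : Reg ℓ s) :
    κ s = Kf ℓ B s := by
  classical
  have := Fintype.ofFinite V₀
  have := Fintype.ofFinite (B.C ⊤)
  obtain ⟨n1, -, -, n4, -, -, -⟩ := nsd ℓ M hM h2 V₀ G E₀ hF B hB ⊤ (rw_top hF)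
  rw [n4 κ hκ s hs]
  unfold Kf
  congr 1
  have htop : ∀ x : V₀, (⊤ : Subgroup V₀) ⊔ Subgroup.zpowers x = ⊤ := fun x => top_sup_eq _
  have hfc : ∀ x : V₀, fc B ⊤ x s⁻¹ = bh B ⊤ ((B.i x)⁻¹ * s⁻¹) := by
    intro x
    unfold fc
    rw [htop, finsum_eq_sum_of_fintype]
    have h3 : ∀ z : B.C ⊤, bh B ⊤ ((B.i x)⁻¹ * ((z : G)⁻¹ * s⁻¹ * z)) =
        bh B ⊤ ((B.i x)⁻¹ * s⁻¹) := by
      intro z
      rw [← bh_cl (B := B) ⊤ z.2 ((B.i x)⁻¹ * s⁻¹)]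
      congr 1
      have h4 : B.i x * z = z * B.i x := (mem_C B).1 z.2 x (Subgroup.mem_top x)
      have h5 : (B.i x)⁻¹ * (z : G)⁻¹ = (z : G)⁻¹ * (B.i x)⁻¹ := by
        rw [← mul_inv_rev, ← mul_inv_rev, h4]
      rw [← mul_assoc, ← mul_assoc, h5]
      group
    rw [Finset.sum_congr rfl fun z _ => h3 z, Finset.sum_const, nsmul_eq_mul, ← mul_assoc,
      Finset.card_univ, Nat.card_eq_fintype_card, inv_mul_cancel₀, one_mul]
    exact_mod_cast Fintype.card_ne_zero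
  have hlam1 : lam B ⊤ κ 1 = 1 := (n1.mapsTo hκ).1
  rw [finsum_eq_sum_of_fintype, Finset.sum_eq_single (1 : V₀)]
  · rw [hfc, map_one, inv_one, one_mul, hlam1]
    unfold ux
    rw [if_pos (Subgroup.mem_top _)]
    simp
  · intro x _ hx
    rw [hfc]
    have h3 : ¬ Reg ℓ ((B.i x)⁻¹ * s⁻¹) := by
      apply not_reg
      · rw [← map_inv, ← map_pow, hF.ex, map_one]
      · rw [← map_inv]
        intro h
        apply hx
        have := hB.inj (h.trans (map_one B.i).symm)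
        exact inv_eq_one.1 this
      · have h4 : B.i x * s = s * B.i x := (mem_C B).1 hs x (Subgroup.mem_top x)
        exact (show Commute (B.i x) s from h4).inv_inv
      · exact K9.H25.reg_inv.2 hr
    rw [bh_sing wbo hM (hB.lb ⊤).blk h3, mul_zero]
  · intro h
    exact absurd (Finset.mem_univ _) h

omit [M.IsMaximal] [Finite G] in
/-- extension of the characters of `C W` -/
theorem ext_ch {W : Subgroup V₀} {κ : B.C W → ℂ} (hκ : κ ∈ IrrE M (fun t : B.C W => B.b W t)) :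
    PP.ext0 (B.C W) κ ∈ Ch B W ∧ ∀ t : B.C W, PP.ext0 (B.C W) κ t = κ t := by
  have h : ∀ t : B.C W, PP.ext0 (B.C W) κ t = κ t := by
    intro t
    unfold PP.ext0
    rw [dif_pos t.2]
  refine ⟨⟨?_, ?_⟩, h⟩
  · intro g hg
    unfold PP.ext0
    rw [dif_neg hg]
  · have e : (fun t : B.C W => PP.ext0 (B.C W) κ t) = κ := funext h
    rw [e]
    exact hκ

theorem span_reg [Finite V₀] (wbo : K9.WboStmt) (nsd : SD.NsdStmt)
    (hM : (ℓ : integralClosure ℤ ℂ) ∈ M) (h2 : ℓ ≠ 2) (hF : Fq ℓ V₀ E₀) (hB : Sd ℓ M E₀ B)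
    {f : B.C ⊤ → ℂ} (hf : f ∈ Submodule.span ℂ (IrrE M (fun t : B.C ⊤ => B.b ⊤ t)))
    {s : B.C ⊤} (hr : Reg ℓ s) : f s * B.D ⊤ = f 1 * Kf ℓ B s := by
  induction hf using Submodule.span_induction with
  | mem κ hκ =>
    obtain ⟨h3, h4⟩ := ext_ch hκ
    have h5 := kap_reg wbo nsd hM h2 hF hB h3 s.2 ((T6.H32.reg_coe_iff s).2 hr)
    rw [h4] at h5
    have h6 : κ 1 = B.D ⊤ := (hB.dg ⊤ (rw_top hF)).2 κ hκ
    rw [h5, h6, mul_comm]
  | zero => simp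
  | add x y _ _ hx hy =>
    rw [Pi.add_apply, Pi.add_apply, add_mul, add_mul, hx, hy]
  | smul a x _ hx =>
    rw [Pi.smul_apply, Pi.smul_apply, smul_eq_mul, smul_eq_mul, mul_assoc, mul_assoc, hx]

omit [M.IsMaximal] [Finite G] in
theorem C_top_le' (W : Subgroup V₀) : B.C ⊤ ≤ B.C W := by
  rw [C_top]
  exact C_top_le B W

/-- the `g`-part of a character at `i(x) s` -/
theorem gv_out [Finite V₀] (wbo : K9.WboStmt) (nsd : SD.NsdStmt)
    (hM : (ℓ : integralClosure ℤ ℂ) ∈ M) (h2 : ℓ ≠ 2) (hF : Fq ℓ V₀ E₀) (hB : Sd ℓ M E₀ B)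
    {W : Subgroup V₀} {χ : G → ℂ} (hχ : χ ∈ Ch B W) (x : V₀) {s : G} (hs : s ∈ B.C ⊤)
    (hr : Reg ℓ s) : ∑ᶠ g, bh B ⊤ g * χ (B.i x * s * g) = vx B χ x * Kf ℓ B s := by
  classical
  have := Fintype.ofFinite G
  have := Fintype.ofFinite (B.C ⊤)
  have hDD := (hB.dg ⊤ (rw_top hF)).1
  have hD : (B.D ⊤ : ℂ) ≠ 0 := by exact_mod_cast hDD.ne'
  set z : B.C ⊤ := ⟨B.i x, i_mem_C B ⊤ x⟩ with hz
  have hzc : ∀ c : B.C ⊤, z * c = c * z := by
    intro c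
    apply Subtype.ext
    exact (mem_C B).1 c.2 x (Subgroup.mem_top x)
  set b' : B.C ⊤ → FF M := fun t => B.b ⊤ t with hb'
  have hsp : (fun c : B.C ⊤ => χ c) ∈ Submodule.span ℂ (Irr (B.C ⊤)) := by
    apply T3.H98.span_irr
    intro u y
    have h3 := irr_conj hχ.2.1 (⟨u, C_top_le' W u.2⟩ : B.C W) ⟨y, C_top_le' W y.2⟩
    exact h3
  have hq := T3.H98.mem_span_blk (M := M) b' hzc hsp
  have h3 := span_reg wbo nsd hM h2 hF hB hq (s := ⟨s, hs⟩)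
    ((T6.H32.reg_coe_iff (⟨s, hs⟩ : B.C ⊤)).1 hr)
  have hsum : ∀ u : B.C ⊤, ∑ᶠ g, bh B ⊤ g * χ (B.i x * u * g) =
      ∑ t : B.C ⊤, eh M b' t * χ ((z * u * t : B.C ⊤) : G) := by
    intro u
    rw [H75.sum_sub (B.C ⊤) (fun g => bh B ⊤ g * χ (B.i x * u * g))
      (fun g hg => by rw [bh_not B ⊤ hg, zero_mul]), finsum_eq_sum_of_fintype]
    refine Finset.sum_congr rfl fun t _ => ?_
    rw [bh_W]
    rfl
  have h4 : ∑ᶠ g, bh B ⊤ g * χ (B.i x * g) =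
      ∑ t : B.C ⊤, eh M b' t * χ ((z * 1 * t : B.C ⊤) : G) := by
    rw [← hsum 1]
    refine finsum_congr fun g => ?_
    rw [Subgroup.coe_one, mul_one]
  have h5 := hsum ⟨s, hs⟩
  rw [← h4, ← h5] at h3
  unfold vx
  rw [div_mul_eq_mul_div, eq_div_iff hD]
  exact h3

/-- the sum of the squares -/
theorem Kf_sum [Finite V₀] (wbo : K9.WboStmt) (nsd : SD.NsdStmt)
    (hM : (ℓ : integralClosure ℤ ℂ) ∈ M) (h2 : ℓ ≠ 2) (hF : Fq ℓ V₀ E₀) (hB : Sd ℓ M E₀ B) :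
    (Nat.card (B.C ⊤) : ℂ)⁻¹ * ∑ᶠ (s : G) (_ : s ∈ B.C ⊤ ∧ Reg ℓ s),
      Kf ℓ B s * starRingEnd ℂ (Kf ℓ B s) = ((ℓ : ℂ) ^ 2)⁻¹ := by
  classical
  have := Fintype.ofFinite G
  have := Fintype.ofFinite (B.C ⊤)
  have hDD := (hB.dg ⊤ (rw_top hF)).1
  have hD : (B.D ⊤ : ℂ) ≠ 0 := by exact_mod_cast hDD.ne'
  have hC : (Nat.card (B.C ⊤) : ℂ) ≠ 0 := by exact_mod_cast Nat.card_pos.ne'
  have hl : (ℓ : ℂ) ≠ 0 := by exact_mod_cast hℓ.out.ne_zero
  obtain ⟨κ, hκ⟩ : (Ch B ⊤).Nonempty := by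
    obtain ⟨n1, -⟩ := nsd ℓ M hM h2 V₀ G E₀ hF B hB ⊤ (rw_top hF)
    have h3 : (fun _ => 1 : V₀ → ℂ) ∈ lin V₀ := ⟨rfl, fun _ _ => (mul_one 1).symm⟩
    obtain ⟨κ, h4, -⟩ := n1.surjOn h3
    exact ⟨κ, h4⟩
  have h1 : ∑ᶠ (s : G) (_ : s ∈ B.C ⊤ ∧ Reg ℓ s), Kf ℓ B s * starRingEnd ℂ (Kf ℓ B s) =
      (Nat.card (B.C ⊤) : ℂ) / (ℓ ^ 2 * B.D ⊤) * ∑ s : B.C ⊤, bh B ⊤ s * κ s := by
    rw [T6.H32.sumC ℓ (B.C ⊤) (fun s => Kf ℓ B s * starRingEnd ℂ (Kf ℓ B s)), Finset.mul_sum]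
    refine Finset.sum_congr rfl fun s _ => ?_
    split_ifs with hr
    · have hr' := (T6.H32.reg_coe_iff s).2 hr
      have h3 := kap_reg wbo nsd hM h2 hF hB hκ s.2 hr'
      have h4 := kap_reg wbo nsd hM h2 hF hB hκ ((B.C ⊤).inv_mem s.2) (K9.H25.reg_inv.2 hr')
      have h5 : starRingEnd ℂ (κ s) = κ (s : G)⁻¹ := H94.irr_star hκ.2.1 s
      rw [← h3, h5, h4]
      unfold Kf
      rw [inv_inv]
      ring
    · rw [bh_sing wbo hM (hB.lb ⊤).blk (fun h => hr ((T6.H32.reg_coe_iff s).1 h))]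
      ring
  have h3 : ∑ s : B.C ⊤, bh B ⊤ s * κ s = B.D ⊤ := by
    have h4 := T6.H81.fv_eh (hB.lb ⊤).blk.blk.1 hκ.2 (1 : B.C ⊤)
    have h5 : κ ((1 : B.C ⊤) : G) = B.D ⊤ := (hB.dg ⊤ (rw_top hF)).2 _ hκ.2
    have h6 : T8.fv (eh M (fun t : B.C ⊤ => B.b ⊤ t)) (1 : B.C ⊤) (fun t : B.C ⊤ => κ t) =
        ∑ s : B.C ⊤, bh B ⊤ s * κ s := by
      unfold T8.fv
      rw [finsum_eq_sum_of_fintype]
      refine Finset.sum_congr rfl fun t _ => ?_
      rw [one_mul, bh_W]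
    rw [← h6, ← h5]
    exact h4
  rw [h1, h3]
  field_simp

omit [M.IsMaximal] [Finite G] in
/-- the centraliser of `i(x)` in `C W`, `x ∉ W` -/
theorem cu_out (hc : Nat.card V₀ = ℓ ^ 2) {W : Subgroup V₀} (hW : W ≠ ⊥) {B' : Bk (FF M) V₀ (B.C W)}
    (hBC : ∀ W' t, t ∈ B'.C W' ↔ (t : G) ∈ B.C (W ⊔ W')) {x : V₀} (hx : x ∉ W) (t : B.C W) :
    t ∈ Cu (B'.i x) ↔ (t : G) ∈ B.C ⊤ := by
  rw [← C_zp B' x, hBC, sup_top hc hW hx]

omit [M.IsMaximal] [Finite G] in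
theorem cu_out' (hc : Nat.card V₀ = ℓ ^ 2) {W : Subgroup V₀} (hW : W ≠ ⊥)
    {B' : Bk (FF M) V₀ (B.C W)}
    (hBC : ∀ W' t, t ∈ B'.C W' ↔ (t : G) ∈ B.C (W ⊔ W')) {x : V₀} (hx : x ∉ W) :
    Cu (B'.i x) = Subgroup.centralizer ((jW B W).range : Set (B.C W)) := by
  ext t
  rw [cu_out hc hW hBC hx, C_top, jW_range]
  exact (cent_sub (i_le_C B W) t).symm

/-- the sections of `i(x)`, `x ∉ W` -/
theorem pm_out [Finite V₀] (wbo : K9.WboStmt) (nsd : SD.NsdStmt)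
    (hM : (ℓ : integralClosure ℤ ℂ) ∈ M) (h2 : ℓ ≠ 2) (hF : Fq ℓ V₀ E₀) (hB : Sd ℓ M E₀ B)
    {W : Subgroup V₀} (hW : W ≠ ⊥) {B' : Bk (FF M) V₀ (B.C W)}
    (hBi : ∀ v, (B'.i v : G) = B.i v) (hBb : ∀ W' t, B'.b W' t = B.b (W ⊔ W') t)
    (hBC : ∀ W' t, t ∈ B'.C W' ↔ (t : G) ∈ B.C (W ⊔ W'))
    {χ ψ : G → ℂ} (hχ : χ ∈ Ch B W) (hψ : ψ ∈ Ch B W) {x : V₀} (hx : x ∉ W) :
    T6.Pm M ℓ (B'.i x) (B'.b (Subgroup.zpowers x)) (fun t : B.C W => χ t)
      (fun t : B.C W => ψ t) = ((ℓ : ℂ) ^ 2)⁻¹ * (vx B χ x * starRingEnd ℂ (vx B ψ x)) := by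
  classical
  have := Fintype.ofFinite G
  have := Fintype.ofFinite (B.C W)
  have hcu := cu_out hF.cd hW hBC hx
  have hb : B'.b (Subgroup.zpowers x) = fun t : B.C W => B.g t := by
    funext t
    rw [hBb, sup_top hF.cd hW hx, b_top B hB.toSb]
  have hEG : ∀ t : B.C W, EG M (Cu (B'.i x)) (B'.b (Subgroup.zpowers x)) t = bh B ⊤ t := by
    intro t
    rw [bh_top B hB.toSb W t, hb, cu_out' hF.cd hW hBC hx]
  have hgv : ∀ χ ∈ Ch B W, ∀ s : B.C W, (s : G) ∈ B.C ⊤ ∧ Reg ℓ (s : G) →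
      gv M (Cu (B'.i x)) (B'.i x * s) (B'.b (Subgroup.zpowers x)) (fun t : B.C W => χ t) =
        vx B χ x * Kf ℓ B s := by
    intro χ hχ s hs
    rw [gv_sum rfl, ← gv_out wbo nsd hM h2 hF hB hχ x hs.1 hs.2,
      H75.sum_sub (B.C W) (fun g => bh B ⊤ g * χ (B.i x * s * g))
      (fun g hg => by rw [bh_not B ⊤ (fun h => hg (C_top_le' W h)), zero_mul]),
      finsum_eq_sum_of_fintype]
    refine Finset.sum_congr rfl fun t _ => ?_
    rw [hEG, Subgroup.coe_mul, Subgroup.coe_mul, hBi]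
  have hcard : Nat.card (Cu (B'.i x)) = Nat.card (B.C ⊤) := by
    rw [cu_out' hF.cd hW hBC hx, C_top, jW_range]
    exact Nat.card_congr (H85.cequiv (i_le_C B W) (C_top_le B W)).toEquiv
  unfold T6.Pm
  have h1 : ∑ᶠ (s : B.C W) (_ : s ∈ Cu (B'.i x) ∧ Reg ℓ s),
      gv M (Cu (B'.i x)) (B'.i x * s) (B'.b (Subgroup.zpowers x)) (fun t : B.C W => χ t) *
      starRingEnd ℂ (gv M (Cu (B'.i x)) (B'.i x * s) (B'.b (Subgroup.zpowers x))
        (fun t : B.C W => ψ t)) =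
      ∑ᶠ (s : B.C W) (_ : (s : G) ∈ B.C ⊤ ∧ Reg ℓ (s : G)),
        (vx B χ x * starRingEnd ℂ (vx B ψ x)) * (Kf ℓ B s * starRingEnd ℂ (Kf ℓ B s)) := by
    refine finsum_congr fun s => ?_
    refine finsum_congr_Prop ?_ ?_
    · rw [hcu, T6.H32.reg_coe_iff]
    · intro hs
      rw [hgv χ hχ s hs, hgv ψ hψ s hs, map_mul]
      ring
  rw [h1, fin_sub (B.C W) (fun s => s ∈ B.C ⊤ ∧ Reg ℓ s) (fun s hs => C_top_le' W hs.1)
    (fun s => (vx B χ x * starRingEnd ℂ (vx B ψ x)) * (Kf ℓ B s * starRingEnd ℂ (Kf ℓ B s))),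
    hcard]
  have h3 : ∑ᶠ (s : G) (_ : s ∈ B.C ⊤ ∧ Reg ℓ s),
      (vx B χ x * starRingEnd ℂ (vx B ψ x)) * (Kf ℓ B s * starRingEnd ℂ (Kf ℓ B s)) =
      (vx B χ x * starRingEnd ℂ (vx B ψ x)) *
        ∑ᶠ (s : G) (_ : s ∈ B.C ⊤ ∧ Reg ℓ s), (Kf ℓ B s * starRingEnd ℂ (Kf ℓ B s)) := by
    rw [finsum_eq_sum_of_fintype, finsum_eq_sum_of_fintype, Finset.mul_sum]
    refine Finset.sum_congr rfl fun s _ => ?_
    rw [finsum_eq_if, finsum_eq_if]
    split_ifs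
    · rfl
    · rw [mul_zero]
  rw [h3, ← Kf_sum wbo nsd hM h2 hF hB]
  ring

/-- the weights for `x ∉ W` -/
theorem wt_out [Finite V₀] (lbd : SD.LbdStmt) (hM : (ℓ : integralClosure ℤ ℂ) ∈ M)
    (hF : Fq ℓ V₀ E₀) (hB : Sd ℓ M E₀ B) {W : Subgroup V₀} (hW : W ≠ ⊥)
    {B' : Bk (FF M) V₀ (B.C W)} (hB' : Sb ℓ M (St E₀ W) B')
    (hBg : ∀ t, B'.g t = B.g t) (hBi : ∀ v, (B'.i v : G) = B.i v)
    (hBC : ∀ W' t, t ∈ B'.C W' ↔ (t : G) ∈ B.C (W ⊔ W')) {x : V₀} (hx : x ∉ W) :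
    T6.wt B'.i.range B'.g (B'.i x) = (nS E₀ W : ℂ)⁻¹ := by
  have hi : B'.i = jW B W := MonoidHom.ext fun v => Subtype.ext (hBi v)
  have hg : B'.g = fun t : B.C W => B.g t := funext hBg
  have hcu : Cu (B'.i x) = Subgroup.centralizer (B'.i.range : Set (B.C W)) := by
    rw [cu_out' hF.cd hW hBC hx, hi]
  have hle := T8.H20.cen_le_Tg hB'.ld.gam
  have h1 := (lbd ℓ M hM V₀ G E₀ hF B hB.toSb W).2.1
  have h2 := T6.H81.card_mul_relIndex hle
  have h3 : (Subgroup.centralizer (B'.i.range : Set (B.C W))).relIndex (Tg B'.i.range B'.g) =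
      nS E₀ W := by
    have h4 : ix B'.i.range B'.g = Nat.card (St E₀ W) := by
      rw [← h1, hg, hi, jW_range]
    exact h4
  unfold T6.wt
  rw [hcu, inf_eq_right.2 hle, ← h2, h3]
  have h5 : (Nat.card (Subgroup.centralizer (B'.i.range : Set (B.C W))) : ℂ) ≠ 0 := by
    exact_mod_cast Nat.card_pos.ne'
  push_cast
  rw [div_mul_eq_div_div, div_self h5, one_div]

omit hℓ in
/-- the sections of `i(x)`, `x ∈ W` -/
theorem pm_in {W : Subgroup V₀} {B' : Bk (FF M) V₀ (B.C W)} (hB' : Sb ℓ M (St E₀ W) B')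
    (hBe : ∀ t, B'.e t = B.b W t)
    (hBi : ∀ v, (B'.i v : G) = B.i v) (hBb : ∀ W' t, B'.b W' t = B.b (W ⊔ W') t)
    {χ ψ : G → ℂ} (hχ : χ ∈ Ch B W) (hψ : ψ ∈ Ch B W) {x : V₀} (hx : x ∈ W)
    (hn : nu B χ x = nu B ψ x) :
    T6.Pm M ℓ (B'.i x) (B'.b (Subgroup.zpowers x)) (fun t : B.C W => χ t)
      (fun t : B.C W => ψ t) = rip ℓ B W χ ψ ∧ T6.wt B'.i.range B'.g (B'.i x) = 1 := by
  classical
  have := Fintype.ofFinite G
  have := Fintype.ofFinite (B.C W)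
  have hi : B'.i = jW B W := MonoidHom.ext fun v => Subtype.ext (hBi v)
  have hcen : B'.i x ∈ Subgroup.center (B.C W) := by
    rw [hi]
    exact jW_cen B W hx
  have hcu : Cu (B'.i x) = ⊤ := by
    rw [eq_top_iff]
    intro t _
    rw [Subgroup.mem_centralizer_singleton_iff]
    exact Subgroup.mem_center_iff.1 hcen t
  have he : B'.e = fun t : B.C W => B.b W t := funext hBe
  have hb : B'.b (Subgroup.zpowers x) = B'.e := by
    funext t
    rw [hBb, hBe, sup_eq_left.2 (Subgroup.zpowers_le.2 hx)]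
  have hid : IsIdem B'.e := hB'.ld.blk.1
  have hgv : ∀ χ ∈ Ch B W, ∀ s : B.C W,
      gv M (Cu (B'.i x)) (B'.i x * s) (B'.b (Subgroup.zpowers x)) (fun t : B.C W => χ t) =
        nu B χ x * χ s := by
    intro χ hχ s
    have hχ' : (fun t : B.C W => χ t) ∈ IrrE M B'.e := by
      rw [he]
      exact hχ.2
    have h1 := T6.H81.fv_eh hid hχ' (B'.i x * s)
    have h2 := KF.H32.central_mul hχ.2.1 hcen s
    have h3 : (fun t : B.C W => χ t) (B'.i x) / (fun t : B.C W => χ t) 1 = nu B χ x := by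
      unfold nu
      show χ (B'.i x : G) / χ ((1 : B.C W) : G) = χ (B.i x) / χ 1
      rw [hBi, Subgroup.coe_one]
    rw [h3] at h2
    have h4 : gv M (Cu (B'.i x)) (B'.i x * s) (B'.b (Subgroup.zpowers x))
        (fun t : B.C W => χ t) = T8.fv (eh M B'.e) (B'.i x * s) (fun t : B.C W => χ t) := by
      rw [gv_sum rfl]
      unfold T8.fv
      rw [finsum_eq_sum_of_fintype]
      refine Finset.sum_congr rfl fun t _ => ?_
      rw [hb, EG_top hcu hid.1]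
    rw [h4, h1]
    exact h2
  have hnn : nu B χ x * starRingEnd ℂ (nu B χ x) = 1 := by
    have h2 := KF.H32.central_mul hχ.2.1 hcen (B'.i x)⁻¹
    rw [mul_inv_cancel] at h2
    have h3 : χ ((1 : B.C W) : G) = nu B χ x * starRingEnd ℂ (χ (B.i x)) := by
      have h4 : starRingEnd ℂ (χ (B'.i x : G)) = χ ((B'.i x)⁻¹ : B.C W) :=
        H94.irr_star hχ.2.1 (B'.i x)
      rw [← hBi x, h4]
      have h5 : nu B χ x = χ (B'.i x : G) / χ ((1 : B.C W) : G) := by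
        unfold nu
        rw [hBi, Subgroup.coe_one]
      rw [h5]
      exact h2
    have h4 : starRingEnd ℂ (χ ((1 : B.C W) : G)) = χ ((1 : B.C W) : G) := by
      have h5 := H94.irr_star hχ.2.1 (1 : B.C W)
      rw [inv_one] at h5
      exact h5
    rw [Subgroup.coe_one] at h3 h4
    have h5 := irr_one_ne hχ.2.1
    change χ ((1 : B.C W) : G) ≠ 0 at h5
    rw [Subgroup.coe_one] at h5
    have h6 : starRingEnd ℂ (nu B χ x) = starRingEnd ℂ (χ (B.i x)) / χ 1 := by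
      unfold nu
      rw [map_div₀, h4]
    rw [h6, ← mul_div_assoc, ← h3, div_self h5]
  constructor
  · unfold T6.Pm rip
    have h1 : ∑ᶠ (s : B.C W) (_ : s ∈ Cu (B'.i x) ∧ Reg ℓ s),
        gv M (Cu (B'.i x)) (B'.i x * s) (B'.b (Subgroup.zpowers x)) (fun t : B.C W => χ t) *
        starRingEnd ℂ (gv M (Cu (B'.i x)) (B'.i x * s) (B'.b (Subgroup.zpowers x))
          (fun t : B.C W => ψ t)) =
        ∑ᶠ (s : B.C W) (_ : (s : G) ∈ B.C W ∧ Reg ℓ (s : G)), χ s * starRingEnd ℂ (ψ s) := by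
      refine finsum_congr fun s => ?_
      refine finsum_congr_Prop ?_ ?_
      · rw [T6.H32.reg_coe_iff, hcu]
        apply propext
        constructor
        · rintro ⟨-, h⟩
          exact ⟨s.2, h⟩
        · rintro ⟨-, h⟩
          exact ⟨Subgroup.mem_top s, h⟩
      · intro hs
        rw [hgv χ hχ s, hgv ψ hψ s, map_mul, ← hn]
        calc nu B χ x * χ s * (starRingEnd ℂ (nu B χ x) * starRingEnd ℂ (ψ s)) =
            (nu B χ x * starRingEnd ℂ (nu B χ x)) * (χ s * starRingEnd ℂ (ψ s)) := by ring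
          _ = _ := by rw [hnn, one_mul]
    rw [h1, fin_sub (B.C W) (fun s => s ∈ B.C W ∧ Reg ℓ s) (fun s hs => hs.1)
      (fun s => χ s * starRingEnd ℂ (ψ s)), hcu]
    have h3 : Nat.card (⊤ : Subgroup (B.C W)) = Nat.card (B.C W) :=
      Nat.card_congr (Subgroup.topEquiv).toEquiv
    rw [h3]
    rfl
  · unfold T6.wt
    rw [hcu, inf_top_eq, div_self]
    exact_mod_cast Nat.card_pos.ne'

end main

/-- RPS: the inner products by sections. -/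
theorem rps (sec : T6.SecStmt) (ips : T6.IpsStmt) (wbo : K9.WboStmt) (rda : SD.RdaStmt)
    (lbd : SD.LbdStmt) (nsd : SD.NsdStmt) : RpsStmt := by
  classical
  intro ℓ hℓ M _ hM h2 V₀ G _ _ _ _ E₀ hF B hB W hW ν hν χ hχ ψ hψ
  have := Fintype.ofFinite V₀
  obtain ⟨-, B', hB', hBe, hBg, hBi, hBb, hBC, -, -, -, -⟩ :=
    rda ℓ M hM h2 V₀ G E₀ hF B hB.toSb W
  have hl : (ℓ : ℂ) ≠ 0 := by exact_mod_cast hℓ.out.ne_zero
  have hWb : W ≠ ⊥ := by
    intro h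
    have h1 := hW.1
    rw [h, Subgroup.card_bot] at h1
    exact hℓ.out.one_lt.ne h1
  have he : B'.e = fun t : B.C W => B.b W t := funext hBe
  have hχ' : (fun t : B.C W => χ t) ∈ IrrE M B'.e := by
    rw [he]
    exact hχ.1.2
  have hψ' : (fun t : B.C W => ψ t) ∈ IrrE M B'.e := by
    rw [he]
    exact hψ.1.2
  have h1 := dat_ips sec ips hM hB' hχ' hψ'
  have h3 : ((fun t : B.C W => χ t) = (fun t : B.C W => ψ t)) ↔ χ = ψ := by
    constructor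
    · intro h
      funext g
      by_cases hg : g ∈ B.C W
      · exact congrFun h ⟨g, hg⟩
      · rw [hχ.1.1 g hg, hψ.1.1 g hg]
    · rintro rfl
      rfl
  have h5 : ∀ x : V₀, T6.wt B'.i.range B'.g (B'.i x) *
      T6.Pm M ℓ (B'.i x) (B'.b (Subgroup.zpowers x)) (fun t : B.C W => χ t)
        (fun t : B.C W => ψ t) = if x ∈ W then rip ℓ B W χ ψ else
      ((ℓ : ℂ) ^ 2 * nS E₀ W)⁻¹ * (vx B χ x * starRingEnd ℂ (vx B ψ x)) := by
    intro x
    split_ifs with hx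
    · have h6 := pm_in hB' hBe hBi hBb hχ.1 hψ.1 hx ((hχ.2 x hx).trans (hψ.2 x hx).symm)
      rw [h6.1, h6.2, one_mul]
    · rw [wt_out lbd hM hF hB hWb hB' hBg hBi hBC hx,
        pm_out wbo nsd hM h2 hF hB hWb hBi hBb hBC hχ.1 hψ.1 hx, mul_inv]
      ring
  rw [Finset.sum_congr rfl fun x _ => h5 x, Finset.sum_ite, Finset.sum_const, nsmul_eq_mul,
    ← Finset.mul_sum] at h1
  have h6 : (Finset.univ.filter (fun x => x ∈ W)).card = ℓ := by
    rw [← hW.1, Nat.card_eq_fintype_card, Fintype.card_subtype]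
  have h7 : ∑ᶠ x ∈ {x : V₀ | x ∉ W}, vx B χ x * starRingEnd ℂ (vx B ψ x) =
      ∑ x ∈ Finset.univ.filter (fun x => x ∉ W), vx B χ x * starRingEnd ℂ (vx B ψ x) := by
    rw [← finsum_mem_coe_finset]
    refine finsum_congr fun c => ?_
    simp
  rw [h6] at h1
  rw [h7, ← h1]
  by_cases h : χ = ψ
  · rw [if_pos h, if_pos (h3.2 h)]
  · rw [if_neg h, if_neg (fun h' => h (h3.1 h'))]

end Pool.Agent.PP.SE.H95
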